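import Mathlib
import Pool.Agent.Helper65.AS.Geo

set_option autoImplicit false

namespace Pool.Agent.Results.MP_8c7236_co.ConvexGraph

/-- The points `x i` lie on the graph of a convex function in some plane of 3-space: for an
orthonormal pair `e`, `g` and an origin `o`, every `x i` is `o + s i • e + f (s i) • g`, with `f`
convex on a (convex) set `I` of reals that contains all the abscissae `s i`. -/
def OnConvexGraph {n : ℕ} (x : Fin n → Fin 3 → ℝ) : Prop :=
  ∃ (o e g : Fin 3 → ℝ) (I : Set ℝ) (f : ℝ → ℝ) (s : Fin n → ℝ),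
    ∑ d, e d ^ 2 = 1 ∧ ∑ d, g d ^ 2 = 1 ∧ ∑ d, e d * g d = 0 ∧ ConvexOn ℝ I f ∧
    (∀ i, s i ∈ I) ∧ ∀ i d, x i d = o d + s i * e d + f (s i) * g d

/-- The lower bound of Atiyah and Sutcliffe for every finite set of points on the graph of a convex
function in a plane. The spinors `(a i j, b i j)` of the directions are arbitrary unit ones. -/
theorem result :
    ∀ (n : ℕ) (x : Fin n → Fin 3 → ℝ), Function.Injective x → OnConvexGraph x →
    ∀ (a b : Fin n → Fin n → ℂ),
      (∀ i j : Fin n, i ≠ j →
        (![2 * (a i j * (starRingEnd ℂ) (b i j)).re,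
           2 * (a i j * (starRingEnd ℂ) (b i j)).im,
           Complex.normSq (a i j) - Complex.normSq (b i j)] : Fin 3 → ℝ) =
        (fun c : Fin 3 => (x j c - x i c) / Real.sqrt (∑ d : Fin 3, (x j d - x i d) ^ 2))) →
      1 ≤ ‖(Matrix.of (fun (i k : Fin n) =>
            (∏ j ∈ Finset.univ.erase i,
              (Polynomial.C (a i j) * Polynomial.X +
                Polynomial.C (b i j))).coeff (k : ℕ))).det‖ := by
  intro n x hinj hgraph a b hab
  obtain ⟨o, e, g, I, f, s, he, hg, heg, hf, hsI, hx⟩ := hgraph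
  exact Pool.H65.AS.final n x hinj o e g I f s he hg heg hf hsI hx a b hab

end Pool.Agent.Results.MP_8c7236_co.ConvexGraph
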